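import Mathlib
import Pool.Agent.Y876.ST.All
import Pool.Agent.Y876.ST.Conv
import Pool.Agent.Y876.ST.Sim
import Pool.Agent.H244R4.SH.RevBridge

/-!
# A two-parameter family of Steinhaus surfaces without rotational symmetry

For `0 < ρ < 1`, `ρ² < 2 (1 - ρ) η`, `(ρ + η)² ≤ 2 ρ²` the boundary of the convex body
`y² + 2 (1 - ρ) cosh x ≤ 1 + (1 - ρ)²`, `|z| ≤ 1 + η - cosh x` is a Steinhaus surface whose antipodal map is
the central symmetry `p ↦ -p`; the intrinsic distance of `p` and `-p` is `2 (ρ + η)` for every point `p`. None of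
these surfaces is a surface of revolution, and no two of them are similar. One of them (`ρ = 1/10`,
`η = 1/100`) is the surface of the starting file `NotOfRevolution`, whose proof is followed here.
-/

set_option autoImplicit false

open Set

namespace Pool.Agent.Results.MP_324c12_gt.TwoParameterFamily

/-- `γ` restricted to `[0, 1]` is a continuous curve in `S` from `p` to `q`. -/
def IsCurve (S : Set (EuclideanSpace ℝ (Fin 3))) (p q : EuclideanSpace ℝ (Fin 3))
    (γ : ℝ → EuclideanSpace ℝ (Fin 3)) : Prop :=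
  ContinuousOn γ (Icc 0 1) ∧ (∀ t ∈ Icc (0 : ℝ) 1, γ t ∈ S) ∧ γ 0 = p ∧ γ 1 = q

/-- The intrinsic distance of `p` and `q` on `S`: the infimum of the lengths of the curves in `S`
from `p` to `q` (the length is the variation of `γ` on `[0, 1]`). -/
noncomputable def idist (S : Set (EuclideanSpace ℝ (Fin 3))) (p q : EuclideanSpace ℝ (Fin 3)) :
    ENNReal :=
  ⨅ (γ : ℝ → EuclideanSpace ℝ (Fin 3)) (_ : IsCurve S p q γ), eVariationOn γ (Icc 0 1)

/-- The antipodes of `p`: the points of `S` at maximal intrinsic distance from `p`. -/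
def antipodes (S : Set (EuclideanSpace ℝ (Fin 3))) (p : EuclideanSpace ℝ (Fin 3)) :
    Set (EuclideanSpace ℝ (Fin 3)) :=
  {q | q ∈ S ∧ ∀ s ∈ S, idist S p s ≤ idist S p q}

/-- `S` is the boundary of a compact convex set with nonempty interior. -/
def IsConvexSurface (S : Set (EuclideanSpace ℝ (Fin 3))) : Prop :=
  ∃ K : Set (EuclideanSpace ℝ (Fin 3)),
    IsCompact K ∧ Convex ℝ K ∧ (interior K).Nonempty ∧ S = frontier K

/-- Every point `p` of `S` has exactly one antipode `F p`, and `F (F p) = p`. -/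
def IsSteinhaus (S : Set (EuclideanSpace ℝ (Fin 3))) : Prop :=
  ∃ F : EuclideanSpace ℝ (Fin 3) → EuclideanSpace ℝ (Fin 3),
    (∀ p ∈ S, antipodes S p = {F p}) ∧ ∀ p ∈ S, F (F p) = p

/-- The determinant of a linear isometry. -/
noncomputable def det3 (R : EuclideanSpace ℝ (Fin 3) ≃ₗᵢ[ℝ] EuclideanSpace ℝ (Fin 3)) : ℝ :=
  LinearMap.det R.toLinearEquiv.toLinearMap

/-- The affine isometry `x ↦ o + R (x - o)`. -/
noncomputable def rot (o : EuclideanSpace ℝ (Fin 3))
    (R : EuclideanSpace ℝ (Fin 3) ≃ₗᵢ[ℝ] EuclideanSpace ℝ (Fin 3)) (x : EuclideanSpace ℝ (Fin 3)) :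
    EuclideanSpace ℝ (Fin 3) := o + R (x - o)

/-- There is a line (through `o`, with direction `v ≠ 0`) such that `S` is invariant under every
rotation `x ↦ o + R (x - o)` about this line (`R` a linear isometry with determinant `1` and
`R v = v`). -/
def IsSurfaceOfRevolution (S : Set (EuclideanSpace ℝ (Fin 3))) : Prop :=
  ∃ o v : EuclideanSpace ℝ (Fin 3), v ≠ 0 ∧
    ∀ R : EuclideanSpace ℝ (Fin 3) ≃ₗᵢ[ℝ] EuclideanSpace ℝ (Fin 3),
      det3 R = 1 → R v = v → rot o R '' S = S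

/-- Some map of the space which multiplies all distances by the same number `c > 0` maps `S` onto `S'`. -/
def AreSimilar (S S' : Set (EuclideanSpace ℝ (Fin 3))) : Prop :=
  ∃ (c : ℝ) (f : EuclideanSpace ℝ (Fin 3) → EuclideanSpace ℝ (Fin 3)),
    0 < c ∧ (∀ x y, dist (f x) (f y) = c * dist x y) ∧ f '' S = S'

/-- The coordinates of a point. -/
def coord (p : EuclideanSpace ℝ (Fin 3)) (i : Fin 3) : ℝ := p i

/-- The convex body with the parameters `ρ`, `η`:
`y² + 2 (1 - ρ) cosh x ≤ 1 + (1 - ρ)²` and `|z| ≤ 1 + η - cosh x`. -/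
def body (ρ η : ℝ) : Set (EuclideanSpace ℝ (Fin 3)) :=
  {p | coord p 1 ^ 2 + 2 * (1 - ρ) * Real.cosh (coord p 0) ≤ 1 + (1 - ρ) ^ 2 ∧
    |coord p 2| ≤ 1 + η - Real.cosh (coord p 0)}

/-- Its boundary. -/
def surface (ρ η : ℝ) : Set (EuclideanSpace ℝ (Fin 3)) := frontier (body ρ η)

/-- The parameters of the family. -/
def Admissible (ρ η : ℝ) : Prop :=
  0 < ρ ∧ ρ < 1 ∧ ρ ^ 2 < 2 * (1 - ρ) * η ∧ (ρ + η) ^ 2 ≤ 2 * ρ ^ 2

/-- the parameters as an instance of the class used in the helper files -/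
def inst {ρ η : ℝ} (h : Admissible ρ η) : Pool.Agent.Y876.ST.Pm where
  ρ := ρ
  η := η
  ρ0 := h.1
  ρ1 := h.2.1
  h1 := h.2.2.1
  h2 := h.2.2.2

theorem surface_eq {ρ η : ℝ} (h : Admissible ρ η) :
    surface ρ η = @Pool.Agent.Y876.ST.S (inst h) :=
  (@Pool.Agent.Y876.ST.ConvX.taskConv (inst h)).2.2.2.symm

/-- **A two-parameter family of Steinhaus surfaces without rotational symmetry.** For all admissible `ρ`, `η`
the surface `surface ρ η` is a convex surface, every point `p` has exactly one antipode, the point `-p`,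
which has the intrinsic distance `2 (ρ + η)` from `p`, and it is not a surface of revolution; surfaces with different
parameters are not similar. All `ρ`, `η` with `0 < ρ ≤ 1/3`, `(3/4) ρ² < η ≤ (2/5) ρ` are admissible. -/
theorem result :
    (∀ ρ η : ℝ, Admissible ρ η →
      IsConvexSurface (surface ρ η) ∧ IsSteinhaus (surface ρ η) ∧
      (∀ p ∈ surface ρ η, antipodes (surface ρ η) p = {-p} ∧
        idist (surface ρ η) p (-p) = ENNReal.ofReal (2 * (ρ + η))) ∧
      ¬ IsSurfaceOfRevolution (surface ρ η) ∧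
      ∀ ρ' η' : ℝ, Admissible ρ' η' → AreSimilar (surface ρ η) (surface ρ' η') → ρ = ρ' ∧ η = η') ∧
    (∀ ρ η : ℝ, 0 < ρ → ρ ≤ 1 / 3 → 3 / 4 * ρ ^ 2 < η → η ≤ 2 / 5 * ρ → Admissible ρ η) := by
  constructor
  · intro ρ η h
    have hS := surface_eq h
    obtain ⟨h2, h3, h4, h5⟩ := @Pool.Agent.Y876.ST.final (inst h)
    obtain ⟨k1, k2, k3, k4⟩ := @Pool.Agent.Y876.ST.ConvX.taskConv (inst h)
    refine ⟨⟨@Pool.Agent.Y876.ST.K (inst h), k1, k2, k3, hS.trans k4⟩, ?_, ?_, ?_, ?_⟩
    · rw [hS]; exact h2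
    · rw [hS]; exact fun p hp => ⟨h3 p hp, h4 p hp⟩
    · rw [hS]
      rintro ⟨o, v, hv, hr⟩
      exact h5 (H244SH.rev_of_rot _ ⟨o, v, hv, fun R hd hR => hr R hd hR⟩)
    · rintro ρ' η' h' ⟨c, f, hc, hf, hh⟩
      rw [hS, surface_eq h'] at hh
      exact Pool.Agent.Y876.ST.Sim.rigid' (inst h) (inst h') c hc f hf hh
  · intro ρ η h1 h2 h3 h4
    have h5 : 0 < η := lt_of_le_of_lt (by positivity) h3
    refine ⟨h1, by linarith, by nlinarith, ?_⟩
    nlinarith

end Pool.Agent.Results.MP_324c12_gt.TwoParameterFamily
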